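import Pool.Agent.H808R3.RD.Word

set_option autoImplicit false

namespace Pool.Agent.Results.MP_37447d_al.ExpPolyGrowth

open Pool.Agent.H808R3.RD

/-- For every length function `L` on a group `G` all of whose balls `B(r)` are finite with at most
`exp(Q(r))` elements for a polynomial `Q`, the indicator condition is equivalent to property RD.
In particular this holds for every finitely generated group with any word length. -/
theorem result :
    (∀ (G : Type) [Group G] (L : G → ℝ), IsLength L → ExpPolyGrowth L →
      (IndicatorCondition L ↔ PropertyRD L)) ∧
    (∀ (G : Type) [Group G] (T : Finset G), Subgroup.closure (T : Set G) = ⊤ →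
      IsLength (wordLen T) ∧ ExpPolyGrowth (wordLen T) ∧
      (IndicatorCondition (wordLen T) ↔ PropertyRD (wordLen T))) := by
  refine ⟨fun G _ L hL hg => ⟨rd_of_indicator L hL hg, indicator_of_rd L⟩, fun G _ T hT => ?_⟩
  have h1 := isLength_wordLen T hT
  have h2 := growth_wordLen T hT
  exact ⟨h1, h2, rd_of_indicator _ h1 h2, indicator_of_rd _⟩

end Pool.Agent.Results.MP_37447d_al.ExpPolyGrowth
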